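import Mathlib
import Pool.Agent.Y661.HE.Stm3

/-!
# HE-COE: coefficients of an asymptotic expansion
-/

set_option autoImplicit false

open Filter

namespace Pool.Agent.Y872.HE.COE

open Pool.Agent.Y661.HE (RF S_COE)

/-- uniqueness of the coefficients of an expansion in powers of `1 / d` -/
theorem uniq (n : ℕ) : ∀ (B : Polynomial ℝ) (K : ℝ) (d₀ : ℕ),
    (∀ d : ℕ, d₀ ≤ d → |B.eval ((d : ℝ)⁻¹)| ≤ K * ((d : ℝ) ^ n)⁻¹) → ∀ j < n, B.coeff j = 0 := by
  induction n with
  | zero => intro B K d₀ _ j hj; omega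
  | succ n ih =>
    intro B K d₀ hB
    have hlim : Tendsto (fun d : ℕ => ((d : ℝ))⁻¹) atTop (nhds 0) :=
      tendsto_inv_atTop_zero.comp tendsto_natCast_atTop_atTop
    have h0 : B.coeff 0 = 0 := by
      have h1 : Tendsto (fun d : ℕ => B.eval ((d : ℝ)⁻¹)) atTop (nhds (B.eval 0)) :=
        (B.continuous.tendsto 0).comp hlim
      have h2 : Tendsto (fun d : ℕ => K * ((d : ℝ) ^ (n + 1))⁻¹) atTop (nhds 0) := by
        have h3 : Tendsto (fun d : ℕ => K * ((d : ℝ)⁻¹) ^ (n + 1)) atTop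
            (nhds (K * 0 ^ (n + 1))) := (hlim.pow (n + 1)).const_mul K
        rw [zero_pow (Nat.succ_ne_zero n), mul_zero] at h3
        refine h3.congr fun d => ?_
        rw [inv_pow]
      have h3 : Tendsto (fun d : ℕ => B.eval ((d : ℝ)⁻¹)) atTop (nhds 0) := by
        refine squeeze_zero_norm' ?_ h2
        filter_upwards [eventually_ge_atTop d₀] with d hd
        rw [Real.norm_eq_abs]
        exact hB d hd
      have h4 := tendsto_nhds_unique h1 h3
      rw [Polynomial.coeff_zero_eq_eval_zero]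
      exact h4
    have hdX : B.divX * Polynomial.X = B := by
      have h1 := B.divX_mul_X_add
      rw [h0, map_zero, add_zero] at h1
      exact h1
    have h1 := ih B.divX K (max d₀ 1) (fun d hd => by
      have hd1 : d₀ ≤ d := le_of_max_le_left hd
      have hd2 : (0 : ℝ) < d := by
        have : 1 ≤ d := le_of_max_le_right hd
        exact_mod_cast this
      have h2 := hB d hd1
      rw [← hdX, Polynomial.eval_mul, Polynomial.eval_X, abs_mul, abs_of_pos (inv_pos.2 hd2)] at h2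
      have h3 : |B.divX.eval ((d : ℝ)⁻¹)| = |B.divX.eval ((d : ℝ)⁻¹)| * (d : ℝ)⁻¹ * d := by
        field_simp
      rw [h3]
      calc |B.divX.eval ((d : ℝ)⁻¹)| * (d : ℝ)⁻¹ * d ≤ K * ((d : ℝ) ^ (n + 1))⁻¹ * d :=
            mul_le_mul_of_nonneg_right h2 hd2.le
        _ = K * ((d : ℝ) ^ n)⁻¹ := by
            rw [pow_succ]
            field_simp)
    intro j hj
    rcases j with _ | j
    · exact h0
    · have h2 := h1 j (by omega)
      rwa [Polynomial.coeff_divX] at h2

/-- truncation of a polynomial -/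
theorem trunc (n : ℕ) : ∀ A : Polynomial ℝ, ∃ K : ℝ, 0 ≤ K ∧ ∀ x : ℝ, 0 ≤ x → x ≤ 1 →
    |A.eval x - ∑ j ∈ Finset.range n, A.coeff j * x ^ j| ≤ K * x ^ n := by
  induction n with
  | zero =>
    intro A
    obtain ⟨K, hK⟩ := isCompact_Icc.exists_bound_of_continuousOn
      (s := Set.Icc (0 : ℝ) 1) (f := fun x => A.eval x) A.continuous.continuousOn
    refine ⟨|K|, abs_nonneg _, fun x h0 h1 => ?_⟩
    have h2 := hK x ⟨h0, h1⟩
    rw [Real.norm_eq_abs] at h2
    simp only [Finset.range_zero, Finset.sum_empty, sub_zero, pow_zero, mul_one]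
    exact h2.trans (le_abs_self K)
  | succ n ih =>
    intro A
    obtain ⟨K, hK0, hK⟩ := ih A.divX
    refine ⟨K, hK0, fun x h0 h1 => ?_⟩
    have h2 := hK x h0 h1
    have h3 : A.eval x = A.divX.eval x * x + A.coeff 0 := by
      conv_lhs => rw [← A.divX_mul_X_add]
      simp
    have h4 : A.eval x - ∑ j ∈ Finset.range (n + 1), A.coeff j * x ^ j =
        x * (A.divX.eval x - ∑ j ∈ Finset.range n, A.divX.coeff j * x ^ j) := by
      rw [h3, Finset.sum_range_succ']
      simp only [Polynomial.coeff_divX, pow_zero, mul_one]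
      rw [mul_sub, Finset.mul_sum]
      have h5 : ∀ j ∈ Finset.range n, A.coeff (j + 1) * x ^ (j + 1) =
          x * (A.coeff (j + 1) * x ^ j) := fun j _ => by ring
      rw [Finset.sum_congr rfl h5]
      ring
    rw [h4, abs_mul, abs_of_nonneg h0]
    calc x * |A.divX.eval x - ∑ j ∈ Finset.range n, A.divX.coeff j * x ^ j|
        ≤ x * (K * x ^ n) := mul_le_mul_of_nonneg_left h2 h0
      _ = K * x ^ (n + 1) := by ring

/-- a bounded rational function is a polynomial in `1 / d` -/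
theorem poly_of_RF {f : ℕ → ℝ} (hf : RF f) {K : ℝ} {d₀ : ℕ} (hb : ∀ d : ℕ, d₀ ≤ d → |f d| ≤ K) :
    ∃ A : Polynomial ℚ, ∀ d : ℕ, 1 ≤ d →
      f d = (A.map (algebraMap ℚ ℝ)).eval ((d : ℝ)⁻¹) := by
  obtain ⟨p, k, hp⟩ := hf
  have hdeg : p.natDegree ≤ k := by
    by_contra hcon
    push Not at hcon
    have h1 : (Polynomial.X ^ k : Polynomial ℝ).degree < (p.map (algebraMap ℚ ℝ)).degree := by
      have hp0 : p ≠ 0 := by
        rintro rfl
        simp at hcon
      rw [Polynomial.degree_X_pow, Polynomial.degree_map, Polynomial.degree_eq_natDegree hp0]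
      exact_mod_cast hcon
    have h2 := Polynomial.abs_div_tendsto_atTop_atTop_of_degree_gt _ _ h1
      (pow_ne_zero k Polynomial.X_ne_zero)
    have h3 := h2.comp (tendsto_natCast_atTop_atTop (R := ℝ))
    have h4 := (h3.eventually (eventually_gt_atTop K)).and
      ((eventually_ge_atTop d₀).and (eventually_ge_atTop 1))
    obtain ⟨d, h5, h6, h7⟩ := h4.exists
    have h8 := hb d h6
    rw [hp d h7] at h8
    simp only [Function.comp, Polynomial.eval_pow, Polynomial.eval_X] at h5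
    linarith
  refine ⟨p.reflect k, fun d hd => ?_⟩
  have hd0 : (d : ℝ) ≠ 0 := by
    have : d ≠ 0 := by omega
    exact_mod_cast this
  rw [hp d hd, ← Polynomial.reflect_map, Polynomial.eval, Polynomial.eval]
  haveI : Invertible (d : ℝ) := invertibleOfNonzero hd0
  have h1 := Polynomial.eval₂_reflect_mul_pow (RingHom.id ℝ) (d : ℝ) k
    (p.map (algebraMap ℚ ℝ)) (Polynomial.natDegree_map_le.trans hdeg)
  rw [invOf_eq_inv] at h1
  rw [div_eq_iff (pow_ne_zero k hd0)]
  exact h1.symm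

/-- COE -/
theorem main : S_COE := by
  intro E hE hf
  choose f hRF Cm dm hm using hf
  obtain ⟨K, d₁, hK⟩ := hE
  have hbd : ∀ m d : ℕ, max (max d₁ (dm m)) 1 ≤ d → |f m d| ≤ K + |Cm m| := by
    intro m d hd
    have e1 : d₁ ≤ d := (le_max_left _ _).trans ((le_max_left _ _).trans hd)
    have e2 : dm m ≤ d := (le_max_right _ _).trans ((le_max_left _ _).trans hd)
    have e3 : 1 ≤ d := (le_max_right _ _).trans hd
    have h1 := hm m d e2
    have h2 := hK d e1
    have h3 : (1 : ℝ) ≤ (d : ℝ) ^ (m + 1) := one_le_pow₀ (by exact_mod_cast e3)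
    have h4 : Cm m * ((d : ℝ) ^ (m + 1))⁻¹ ≤ |Cm m| := by
      calc Cm m * ((d : ℝ) ^ (m + 1))⁻¹ ≤ |Cm m| * ((d : ℝ) ^ (m + 1))⁻¹ :=
            mul_le_mul_of_nonneg_right (le_abs_self _) (by positivity)
        _ ≤ |Cm m| * 1 := mul_le_mul_of_nonneg_left (inv_le_one_of_one_le₀ h3) (abs_nonneg _)
        _ = |Cm m| := mul_one _
    have h5 : |f m d| ≤ |E d| + |E d - f m d| := by
      have h6 : f m d = E d - (E d - f m d) := by ring
      calc |f m d| = |E d - (E d - f m d)| := by rw [← h6]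
        _ ≤ |E d| + |E d - f m d| := abs_sub _ _
    linarith
  choose A hA using fun m => poly_of_RF (hRF m) (hbd m)
  -- the expansion
  have hE2 : ∀ m d : ℕ, max (dm m) 1 ≤ d →
      |E d - ((A m).map (algebraMap ℚ ℝ)).eval ((d : ℝ)⁻¹)| ≤ |Cm m| * ((d : ℝ) ^ (m + 1))⁻¹ := by
    intro m d hd
    have h1 := hm m d ((le_max_left _ _).trans hd)
    rw [hA m d ((le_max_right _ _).trans hd)] at h1
    exact h1.trans (mul_le_mul_of_nonneg_right (le_abs_self _) (by positivity))
  have hcomp : ∀ j m : ℕ, j ≤ m → (A j).coeff j = (A m).coeff j := by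
    intro j m hjm
    have h1 := uniq (j + 1) ((A j).map (algebraMap ℚ ℝ) - (A m).map (algebraMap ℚ ℝ))
      (|Cm j| + |Cm m|) (max (max (dm j) (dm m)) 1) (fun d hd => by
        have e1 : max (dm j) 1 ≤ d :=
          max_le ((le_max_left _ _).trans ((le_max_left _ _).trans hd)) ((le_max_right _ _).trans hd)
        have e2 : max (dm m) 1 ≤ d :=
          max_le ((le_max_right _ _).trans ((le_max_left _ _).trans hd)) ((le_max_right _ _).trans hd)
        have e3 : 1 ≤ d := (le_max_right _ _).trans hd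
        have h2 := hE2 j d e1
        have h3 := hE2 m d e2
        have hd1 : (1 : ℝ) ≤ d := by exact_mod_cast e3
        have h4 : ((d : ℝ) ^ (m + 1))⁻¹ ≤ ((d : ℝ) ^ (j + 1))⁻¹ := by
          apply inv_anti₀ (by positivity)
          exact pow_le_pow_right₀ hd1 (by omega)
        have h5 : |Cm m| * ((d : ℝ) ^ (m + 1))⁻¹ ≤ |Cm m| * ((d : ℝ) ^ (j + 1))⁻¹ :=
          mul_le_mul_of_nonneg_left h4 (abs_nonneg _)
        rw [Polynomial.eval_sub]
        have h6 : ((A j).map (algebraMap ℚ ℝ)).eval ((d : ℝ)⁻¹) -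
            ((A m).map (algebraMap ℚ ℝ)).eval ((d : ℝ)⁻¹) =
            (E d - ((A m).map (algebraMap ℚ ℝ)).eval ((d : ℝ)⁻¹)) -
              (E d - ((A j).map (algebraMap ℚ ℝ)).eval ((d : ℝ)⁻¹)) := by ring
        rw [h6]
        have h7 := abs_sub (E d - ((A m).map (algebraMap ℚ ℝ)).eval ((d : ℝ)⁻¹))
          (E d - ((A j).map (algebraMap ℚ ℝ)).eval ((d : ℝ)⁻¹))
        rw [add_mul]
        linarith) j (by omega)
    rw [Polynomial.coeff_sub, Polynomial.coeff_map, Polynomial.coeff_map, ← map_sub] at h1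
    have h2 : (A j).coeff j - (A m).coeff j = 0 :=
      (algebraMap ℚ ℝ).injective (by rw [h1, map_zero])
    exact sub_eq_zero.1 h2
  refine ⟨fun j => (A j).coeff j, fun m => ?_⟩
  obtain ⟨K', hK'0, hK'⟩ := trunc (m + 1) ((A m).map (algebraMap ℚ ℝ))
  refine ⟨|Cm m| + K', max (dm m) 1, fun d hd => ?_⟩
  have e3 : 1 ≤ d := (le_max_right _ _).trans hd
  have hd1 : (1 : ℝ) ≤ d := by exact_mod_cast e3
  have h1 := hE2 m d hd
  have h2 := hK' ((d : ℝ)⁻¹) (by positivity) (inv_le_one_of_one_le₀ hd1)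
  have h3 : ∑ j ∈ Finset.range (m + 1), (((A j).coeff j : ℚ) : ℝ) * ((d : ℝ) ^ j)⁻¹ =
      ∑ j ∈ Finset.range (m + 1), ((A m).map (algebraMap ℚ ℝ)).coeff j * ((d : ℝ)⁻¹) ^ j := by
    refine Finset.sum_congr rfl fun j hj => ?_
    rw [hcomp j m (by have := Finset.mem_range.1 hj; omega), Polynomial.coeff_map, inv_pow]
    rfl
  show |E d - ∑ j ∈ Finset.range (m + 1), (((A j).coeff j : ℚ) : ℝ) * ((d : ℝ) ^ j)⁻¹| ≤ _
  rw [h3]
  have h4 := abs_add_le (E d - ((A m).map (algebraMap ℚ ℝ)).eval ((d : ℝ)⁻¹))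
    (((A m).map (algebraMap ℚ ℝ)).eval ((d : ℝ)⁻¹) -
      ∑ j ∈ Finset.range (m + 1), ((A m).map (algebraMap ℚ ℝ)).coeff j * ((d : ℝ)⁻¹) ^ j)
  rw [sub_add_sub_cancel] at h4
  rw [inv_pow] at h2
  rw [add_mul]
  linarith

end Pool.Agent.Y872.HE.COE
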